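import Mathlib

set_option autoImplicit false

namespace Pool.Agent.Results.MP_9c9d6b_nt.NonReciprocal

open Polynomial

/-- The remainders `r_n` of the greedy expansion of `1` in base `β`. -/
noncomputable def rem (β : ℝ) : ℕ → ℝ
  | 0 => 1
  | n + 1 => β * rem β n - ⌊β * rem β n⌋

/-- The digits `c_n = ⌊β r_{n-1}⌋` (`n ≥ 1`) of the greedy expansion of `1` in base `β`. -/
noncomputable def dig (β : ℝ) (n : ℕ) : ℤ := ⌊β * rem β (n - 1)⌋

/-- `c_{n+m} = c_{n+m+p}` for all `n ≥ 1`. -/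
def EventuallyPeriodic (β : ℝ) (m p : ℕ) : Prop :=
  1 ≤ p ∧ ∀ n, 1 ≤ n → dig β (n + m) = dig β (n + m + p)

/-- `m` and `p` are the preperiod length and the period length (the least possible ones) of the
greedy expansion of `1`. -/
def HasPreperiodPeriod (β : ℝ) (m p : ℕ) : Prop :=
  EventuallyPeriodic β m p ∧ ∀ m' p', EventuallyPeriodic β m' p' → m ≤ m' ∧ p ≤ p'

/-- `P_k = x^k - c_1 x^{k-1} - ... - c_k`. -/
noncomputable def expPoly (β : ℝ) (k : ℕ) : ℤ[X] :=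
  X ^ k - ∑ i ∈ Finset.range k, C (dig β (i + 1)) * X ^ (k - 1 - i)

/-- Salem numbers. -/
def IsSalem (β : ℝ) : Prop :=
  1 < β ∧ IsIntegral ℤ β ∧
    (∀ z : ℂ, aeval z (minpoly ℤ β) = 0 → z ≠ (β : ℂ) → ‖z‖ ≤ 1) ∧
    ∃ z : ℂ, aeval z (minpoly ℤ β) = 0 ∧ ‖z‖ = 1

/-- the bracket for `β` and the resulting brackets for its powers -/
structure Brk (β : ℝ) : Prop where
  root : β ^ 6 = 5 * β ^ 5 + 3 * β ^ 4 - 2 * β ^ 3 + 3 * β ^ 2 + 5 * β - 1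
  lo1 : (5502421/1000000) < β
  hi1 : β < (2751211/500000)
  lo2 : (30276637/1000000) < β ^ 2
  hi2 : β ^ 2 < (15138319/500000)
  lo3 : (41648701/250000) < β ^ 3
  hi3 : β ^ 3 < (33318961/200000)
  lo4 : (14323043/15625) < β ^ 4
  hi4 : β ^ 4 < (916674753/1000000)
  lo5 : (630491303/125000) < β ^ 5
  hi5 : β ^ 5 < (504393043/100000)

lemma exists_beta : ∃ β : ℝ, Brk β := by
  have hc : ContinuousOn (fun x : ℝ => x ^ 6 - 5 * x ^ 5 - 3 * x ^ 4 + 2 * x ^ 3 - 3 * x ^ 2 - 5 * x + 1)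
      (Set.Icc ((5502421019/1000000000) : ℝ) (275121051/50000000)) := by fun_prop
  have h := intermediate_value_Icc (by norm_num : ((5502421019/1000000000) : ℝ) ≤ (275121051/50000000)) hc
  obtain ⟨β, ⟨h1, h2⟩, h3⟩ := h (show (0 : ℝ) ∈ Set.Icc _ _ by constructor <;> norm_num)
  have h0 : (0 : ℝ) ≤ (5502421019/1000000000) := by norm_num
  have h4 : β ^ 6 = 5 * β ^ 5 + 3 * β ^ 4 - 2 * β ^ 3 + 3 * β ^ 2 + 5 * β - 1 := by
    have h3' : β ^ 6 - 5 * β ^ 5 - 3 * β ^ 4 + 2 * β ^ 3 - 3 * β ^ 2 - 5 * β + 1 = 0 := h3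
    linarith
  have l2 := pow_le_pow_left₀ h0 h1 2
  have l3 := pow_le_pow_left₀ h0 h1 3
  have l4 := pow_le_pow_left₀ h0 h1 4
  have l5 := pow_le_pow_left₀ h0 h1 5
  have hb : (0 : ℝ) ≤ β := h0.trans h1
  have u2 := pow_le_pow_left₀ hb h2 2
  have u3 := pow_le_pow_left₀ hb h2 3
  have u4 := pow_le_pow_left₀ hb h2 4
  have u5 := pow_le_pow_left₀ hb h2 5
  refine ⟨β, h4, ?_, ?_, ?_, ?_, ?_, ?_, ?_, ?_, ?_, ?_⟩
  · exact lt_of_lt_of_le (by norm_num) h1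
  · exact lt_of_le_of_lt h2 (by norm_num)
  · exact lt_of_lt_of_le (by norm_num) l2
  · exact lt_of_le_of_lt u2 (by norm_num)
  · exact lt_of_lt_of_le (by norm_num) l3
  · exact lt_of_le_of_lt u3 (by norm_num)
  · exact lt_of_lt_of_le (by norm_num) l4
  · exact lt_of_le_of_lt u4 (by norm_num)
  · exact lt_of_lt_of_le (by norm_num) l5
  · exact lt_of_le_of_lt u5 (by norm_num)


lemma step {β : ℝ} {n : ℕ} {r w r' : ℝ} {c : ℤ} (h : rem β n = r) (hw : β * r = w)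
    (h1 : (c : ℝ) ≤ w) (h2 : w < c + 1) (h3 : w - c = r') :
    dig β (n + 1) = c ∧ rem β (n + 1) = r' := by
  have hf : ⌊w⌋ = c := Int.floor_eq_iff.mpr ⟨h1, h2⟩
  constructor
  · show ⌊β * rem β n⌋ = c
    rw [h, hw, hf]
  · show β * rem β n - ⌊β * rem β n⌋ = r'
    rw [h, hw, hf, h3]

lemma step1 {β : ℝ} (hb : Brk β) : dig β 1 = 5 ∧ rem β 1 = (-5:ℝ) + (1)*β := by
  have h0 : rem β 0 = 1 := rfl
  obtain ⟨h6, l1, u1, l2, u2, l3, u3, l4, u4, l5, u5⟩ := hb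
  refine step (w := (1)*β) h0 ?_ ?_ ?_ ?_
  · linear_combination (0 : ℝ) * h6
  · push_cast; linarith
  · push_cast; linarith
  · push_cast; ring

lemma step2 {β : ℝ} (hb : Brk β) : dig β 2 = 2 ∧ rem β 2 = (-2:ℝ) + (-5)*β + (1)*β^2 := by
  have h0 := (step1 hb).2
  obtain ⟨h6, l1, u1, l2, u2, l3, u3, l4, u4, l5, u5⟩ := hb
  refine step (w := (-5)*β + (1)*β^2) h0 ?_ ?_ ?_ ?_
  · linear_combination (0 : ℝ) * h6
  · push_cast; linarith
  · push_cast; linarith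
  · push_cast; ring

lemma step3 {β : ℝ} (hb : Brk β) : dig β 3 = 4 ∧ rem β 3 = (-4:ℝ) + (-2)*β + (-5)*β^2 + (1)*β^3 := by
  have h0 := (step2 hb).2
  obtain ⟨h6, l1, u1, l2, u2, l3, u3, l4, u4, l5, u5⟩ := hb
  refine step (w := (-2)*β + (-5)*β^2 + (1)*β^3) h0 ?_ ?_ ?_ ?_
  · linear_combination (0 : ℝ) * h6
  · push_cast; linarith
  · push_cast; linarith
  · push_cast; ring

lemma step4 {β : ℝ} (hb : Brk β) : dig β 4 = 1 ∧ rem β 4 = (-1:ℝ) + (-4)*β + (-2)*β^2 + (-5)*β^3 + (1)*β^4 := by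
  have h0 := (step3 hb).2
  obtain ⟨h6, l1, u1, l2, u2, l3, u3, l4, u4, l5, u5⟩ := hb
  refine step (w := (-4)*β + (-2)*β^2 + (-5)*β^3 + (1)*β^4) h0 ?_ ?_ ?_ ?_
  · linear_combination (0 : ℝ) * h6
  · push_cast; linarith
  · push_cast; linarith
  · push_cast; ring

lemma step5 {β : ℝ} (hb : Brk β) : dig β 5 = 0 ∧ rem β 5 = (-1)*β + (-4)*β^2 + (-2)*β^3 + (-5)*β^4 + (1)*β^5 := by
  have h0 := (step4 hb).2
  obtain ⟨h6, l1, u1, l2, u2, l3, u3, l4, u4, l5, u5⟩ := hb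
  refine step (w := (-1)*β + (-4)*β^2 + (-2)*β^3 + (-5)*β^4 + (1)*β^5) h0 ?_ ?_ ?_ ?_
  · linear_combination (0 : ℝ) * h6
  · push_cast; linarith
  · push_cast; linarith
  · push_cast; ring

lemma step6 {β : ℝ} (hb : Brk β) : dig β 6 = 4 ∧ rem β 6 = (-5:ℝ) + (5)*β + (2)*β^2 + (-6)*β^3 + (1)*β^4 := by
  have h0 := (step5 hb).2
  obtain ⟨h6, l1, u1, l2, u2, l3, u3, l4, u4, l5, u5⟩ := hb
  refine step (w := (-1:ℝ) + (5)*β + (2)*β^2 + (-6)*β^3 + (1)*β^4) h0 ?_ ?_ ?_ ?_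
  · linear_combination (1 : ℝ) * h6
  · push_cast; linarith
  · push_cast; linarith
  · push_cast; ring

lemma step7 {β : ℝ} (hb : Brk β) : dig β 7 = 0 ∧ rem β 7 = (-5)*β + (5)*β^2 + (2)*β^3 + (-6)*β^4 + (1)*β^5 := by
  have h0 := (step6 hb).2
  obtain ⟨h6, l1, u1, l2, u2, l3, u3, l4, u4, l5, u5⟩ := hb
  refine step (w := (-5)*β + (5)*β^2 + (2)*β^3 + (-6)*β^4 + (1)*β^5) h0 ?_ ?_ ?_ ?_
  · linear_combination (0 : ℝ) * h6
  · push_cast; linarith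
  · push_cast; linarith
  · push_cast; ring

lemma step8 {β : ℝ} (hb : Brk β) : dig β 8 = 5 ∧ rem β 8 = (-6:ℝ) + (5)*β + (-2)*β^2 + (3)*β^3 + (5)*β^4 + (-1)*β^5 := by
  have h0 := (step7 hb).2
  obtain ⟨h6, l1, u1, l2, u2, l3, u3, l4, u4, l5, u5⟩ := hb
  refine step (w := (-1:ℝ) + (5)*β + (-2)*β^2 + (3)*β^3 + (5)*β^4 + (-1)*β^5) h0 ?_ ?_ ?_ ?_
  · linear_combination (1 : ℝ) * h6
  · push_cast; linarith
  · push_cast; linarith
  · push_cast; ring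

lemma step9 {β : ℝ} (hb : Brk β) : dig β 9 = 1 ∧ rem β 9 = (-11)*β + (2)*β^2 := by
  have h0 := (step8 hb).2
  obtain ⟨h6, l1, u1, l2, u2, l3, u3, l4, u4, l5, u5⟩ := hb
  refine step (w := (1:ℝ) + (-11)*β + (2)*β^2) h0 ?_ ?_ ?_ ?_
  · linear_combination (-1 : ℝ) * h6
  · push_cast; linarith
  · push_cast; linarith
  · push_cast; ring

lemma step10 {β : ℝ} (hb : Brk β) : dig β 10 = 0 ∧ rem β 10 = (-11)*β^2 + (2)*β^3 := by
  have h0 := (step9 hb).2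
  obtain ⟨h6, l1, u1, l2, u2, l3, u3, l4, u4, l5, u5⟩ := hb
  refine step (w := (-11)*β^2 + (2)*β^3) h0 ?_ ?_ ?_ ?_
  · linear_combination (0 : ℝ) * h6
  · push_cast; linarith
  · push_cast; linarith
  · push_cast; ring

lemma step11 {β : ℝ} (hb : Brk β) : dig β 11 = 0 ∧ rem β 11 = (-11)*β^3 + (2)*β^4 := by
  have h0 := (step10 hb).2
  obtain ⟨h6, l1, u1, l2, u2, l3, u3, l4, u4, l5, u5⟩ := hb
  refine step (w := (-11)*β^3 + (2)*β^4) h0 ?_ ?_ ?_ ?_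
  · linear_combination (0 : ℝ) * h6
  · push_cast; linarith
  · push_cast; linarith
  · push_cast; ring

lemma step12 {β : ℝ} (hb : Brk β) : dig β 12 = 4 ∧ rem β 12 = (-4:ℝ) + (-11)*β^4 + (2)*β^5 := by
  have h0 := (step11 hb).2
  obtain ⟨h6, l1, u1, l2, u2, l3, u3, l4, u4, l5, u5⟩ := hb
  refine step (w := (-11)*β^4 + (2)*β^5) h0 ?_ ?_ ?_ ?_
  · linear_combination (0 : ℝ) * h6
  · push_cast; linarith
  · push_cast; linarith
  · push_cast; ring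

lemma step13 {β : ℝ} (hb : Brk β) : dig β 13 = 2 ∧ rem β 13 = (-4:ℝ) + (6)*β + (6)*β^2 + (-4)*β^3 + (6)*β^4 + (-1)*β^5 := by
  have h0 := (step12 hb).2
  obtain ⟨h6, l1, u1, l2, u2, l3, u3, l4, u4, l5, u5⟩ := hb
  refine step (w := (-2:ℝ) + (6)*β + (6)*β^2 + (-4)*β^3 + (6)*β^4 + (-1)*β^5) h0 ?_ ?_ ?_ ?_
  · linear_combination (2 : ℝ) * h6
  · push_cast; linarith
  · push_cast; linarith
  · push_cast; ring

lemma step14 {β : ℝ} (hb : Brk β) : dig β 14 = 2 ∧ rem β 14 = (-1:ℝ) + (-9)*β + (3)*β^2 + (8)*β^3 + (-7)*β^4 + (1)*β^5 := by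
  have h0 := (step13 hb).2
  obtain ⟨h6, l1, u1, l2, u2, l3, u3, l4, u4, l5, u5⟩ := hb
  refine step (w := (1:ℝ) + (-9)*β + (3)*β^2 + (8)*β^3 + (-7)*β^4 + (1)*β^5) h0 ?_ ?_ ?_ ?_
  · linear_combination (-1 : ℝ) * h6
  · push_cast; linarith
  · push_cast; linarith
  · push_cast; ring

lemma step15 {β : ℝ} (hb : Brk β) : dig β 15 = 1 ∧ rem β 15 = (-2:ℝ) + (4)*β + (-6)*β^2 + (1)*β^3 + (11)*β^4 + (-2)*β^5 := by
  have h0 := (step14 hb).2
  obtain ⟨h6, l1, u1, l2, u2, l3, u3, l4, u4, l5, u5⟩ := hb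
  refine step (w := (-1:ℝ) + (4)*β + (-6)*β^2 + (1)*β^3 + (11)*β^4 + (-2)*β^5) h0 ?_ ?_ ?_ ?_
  · linear_combination (1 : ℝ) * h6
  · push_cast; linarith
  · push_cast; linarith
  · push_cast; ring

lemma step16 {β : ℝ} (hb : Brk β) : dig β 16 = 2 ∧ rem β 16 = (-12)*β + (-2)*β^2 + (-2)*β^3 + (-5)*β^4 + (1)*β^5 := by
  have h0 := (step15 hb).2
  obtain ⟨h6, l1, u1, l2, u2, l3, u3, l4, u4, l5, u5⟩ := hb
  refine step (w := (2:ℝ) + (-12)*β + (-2)*β^2 + (-2)*β^3 + (-5)*β^4 + (1)*β^5) h0 ?_ ?_ ?_ ?_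
  · linear_combination (-2 : ℝ) * h6
  · push_cast; linarith
  · push_cast; linarith
  · push_cast; ring

lemma step17 {β : ℝ} (hb : Brk β) : dig β 17 = 4 ∧ rem β 17 = (-5:ℝ) + (5)*β + (-9)*β^2 + (-4)*β^3 + (1)*β^4 := by
  have h0 := (step16 hb).2
  obtain ⟨h6, l1, u1, l2, u2, l3, u3, l4, u4, l5, u5⟩ := hb
  refine step (w := (-1:ℝ) + (5)*β + (-9)*β^2 + (-4)*β^3 + (1)*β^4) h0 ?_ ?_ ?_ ?_
  · linear_combination (1 : ℝ) * h6
  · push_cast; linarith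
  · push_cast; linarith
  · push_cast; ring

lemma step18 {β : ℝ} (hb : Brk β) : dig β 18 = 1 ∧ rem β 18 = (-1:ℝ) + (-5)*β + (5)*β^2 + (-9)*β^3 + (-4)*β^4 + (1)*β^5 := by
  have h0 := (step17 hb).2
  obtain ⟨h6, l1, u1, l2, u2, l3, u3, l4, u4, l5, u5⟩ := hb
  refine step (w := (-5)*β + (5)*β^2 + (-9)*β^3 + (-4)*β^4 + (1)*β^5) h0 ?_ ?_ ?_ ?_
  · linear_combination (0 : ℝ) * h6
  · push_cast; linarith
  · push_cast; linarith
  · push_cast; ring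

lemma step19 {β : ℝ} (hb : Brk β) : dig β 19 = 4 ∧ rem β 19 = (-5:ℝ) + (4)*β + (-2)*β^2 + (3)*β^3 + (-6)*β^4 + (1)*β^5 := by
  have h0 := (step18 hb).2
  obtain ⟨h6, l1, u1, l2, u2, l3, u3, l4, u4, l5, u5⟩ := hb
  refine step (w := (-1:ℝ) + (4)*β + (-2)*β^2 + (3)*β^3 + (-6)*β^4 + (1)*β^5) h0 ?_ ?_ ?_ ?_
  · linear_combination (1 : ℝ) * h6
  · push_cast; linarith
  · push_cast; linarith
  · push_cast; ring

lemma step20 {β : ℝ} (hb : Brk β) : dig β 20 = 0 ∧ rem β 20 = (-1:ℝ) + (7)*β^2 + (-4)*β^3 + (6)*β^4 + (-1)*β^5 := by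
  have h0 := (step19 hb).2
  obtain ⟨h6, l1, u1, l2, u2, l3, u3, l4, u4, l5, u5⟩ := hb
  refine step (w := (-1:ℝ) + (7)*β^2 + (-4)*β^3 + (6)*β^4 + (-1)*β^5) h0 ?_ ?_ ?_ ?_
  · linear_combination (1 : ℝ) * h6
  · push_cast; linarith
  · push_cast; linarith
  · push_cast; ring

lemma step21 {β : ℝ} (hb : Brk β) : dig β 21 = 3 ∧ rem β 21 = (-2:ℝ) + (-6)*β + (-3)*β^2 + (9)*β^3 + (-7)*β^4 + (1)*β^5 := by
  have h0 := (step20 hb).2
  obtain ⟨h6, l1, u1, l2, u2, l3, u3, l4, u4, l5, u5⟩ := hb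
  refine step (w := (1:ℝ) + (-6)*β + (-3)*β^2 + (9)*β^3 + (-7)*β^4 + (1)*β^5) h0 ?_ ?_ ?_ ?_
  · linear_combination (-1 : ℝ) * h6
  · push_cast; linarith
  · push_cast; linarith
  · push_cast; ring

lemma step22 {β : ℝ} (hb : Brk β) : dig β 22 = 3 ∧ rem β 22 = (-4:ℝ) + (3)*β + (-3)*β^2 + (-5)*β^3 + (12)*β^4 + (-2)*β^5 := by
  have h0 := (step21 hb).2
  obtain ⟨h6, l1, u1, l2, u2, l3, u3, l4, u4, l5, u5⟩ := hb
  refine step (w := (-1:ℝ) + (3)*β + (-3)*β^2 + (-5)*β^3 + (12)*β^4 + (-2)*β^5) h0 ?_ ?_ ?_ ?_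
  · linear_combination (1 : ℝ) * h6
  · push_cast; linarith
  · push_cast; linarith
  · push_cast; ring

lemma step23 {β : ℝ} (hb : Brk β) : dig β 23 = 5 ∧ rem β 23 = (-3:ℝ) + (-14)*β + (-3)*β^2 + (1)*β^3 + (-11)*β^4 + (2)*β^5 := by
  have h0 := (step22 hb).2
  obtain ⟨h6, l1, u1, l2, u2, l3, u3, l4, u4, l5, u5⟩ := hb
  refine step (w := (2:ℝ) + (-14)*β + (-3)*β^2 + (1)*β^3 + (-11)*β^4 + (2)*β^5) h0 ?_ ?_ ?_ ?_
  · linear_combination (-2 : ℝ) * h6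
  · push_cast; linarith
  · push_cast; linarith
  · push_cast; ring

lemma step24 {β : ℝ} (hb : Brk β) : dig β 24 = 0 ∧ rem β 24 = (-2:ℝ) + (7)*β + (-8)*β^2 + (-7)*β^3 + (7)*β^4 + (-1)*β^5 := by
  have h0 := (step23 hb).2
  obtain ⟨h6, l1, u1, l2, u2, l3, u3, l4, u4, l5, u5⟩ := hb
  refine step (w := (-2:ℝ) + (7)*β + (-8)*β^2 + (-7)*β^3 + (7)*β^4 + (-1)*β^5) h0 ?_ ?_ ?_ ?_
  · linear_combination (2 : ℝ) * h6
  · push_cast; linarith
  · push_cast; linarith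
  · push_cast; ring

lemma step25 {β : ℝ} (hb : Brk β) : dig β 25 = 5 ∧ rem β 25 = (-4:ℝ) + (-7)*β + (4)*β^2 + (-6)*β^3 + (-10)*β^4 + (2)*β^5 := by
  have h0 := (step24 hb).2
  obtain ⟨h6, l1, u1, l2, u2, l3, u3, l4, u4, l5, u5⟩ := hb
  refine step (w := (1:ℝ) + (-7)*β + (4)*β^2 + (-6)*β^3 + (-10)*β^4 + (2)*β^5) h0 ?_ ?_ ?_ ?_
  · linear_combination (-1 : ℝ) * h6
  · push_cast; linarith
  · push_cast; linarith
  · push_cast; ring

lemma step26 {β : ℝ} (hb : Brk β) : dig β 26 = 0 ∧ rem β 26 = (-2:ℝ) + (6)*β + (-1)*β^2 := by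
  have h0 := (step25 hb).2
  obtain ⟨h6, l1, u1, l2, u2, l3, u3, l4, u4, l5, u5⟩ := hb
  refine step (w := (-2:ℝ) + (6)*β + (-1)*β^2) h0 ?_ ?_ ?_ ?_
  · linear_combination (2 : ℝ) * h6
  · push_cast; linarith
  · push_cast; linarith
  · push_cast; ring

lemma step27 {β : ℝ} (hb : Brk β) : dig β 27 = 4 ∧ rem β 27 = (-4:ℝ) + (-2)*β + (6)*β^2 + (-1)*β^3 := by
  have h0 := (step26 hb).2
  obtain ⟨h6, l1, u1, l2, u2, l3, u3, l4, u4, l5, u5⟩ := hb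
  refine step (w := (-2)*β + (6)*β^2 + (-1)*β^3) h0 ?_ ?_ ?_ ?_
  · linear_combination (0 : ℝ) * h6
  · push_cast; linarith
  · push_cast; linarith
  · push_cast; ring

lemma step28 {β : ℝ} (hb : Brk β) : dig β 28 = 0 ∧ rem β 28 = (-4)*β + (-2)*β^2 + (6)*β^3 + (-1)*β^4 := by
  have h0 := (step27 hb).2
  obtain ⟨h6, l1, u1, l2, u2, l3, u3, l4, u4, l5, u5⟩ := hb
  refine step (w := (-4)*β + (-2)*β^2 + (6)*β^3 + (-1)*β^4) h0 ?_ ?_ ?_ ?_
  · linear_combination (0 : ℝ) * h6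
  · push_cast; linarith
  · push_cast; linarith
  · push_cast; ring

lemma step29 {β : ℝ} (hb : Brk β) : dig β 29 = 1 ∧ rem β 29 = (-1:ℝ) + (-4)*β^2 + (-2)*β^3 + (6)*β^4 + (-1)*β^5 := by
  have h0 := (step28 hb).2
  obtain ⟨h6, l1, u1, l2, u2, l3, u3, l4, u4, l5, u5⟩ := hb
  refine step (w := (-4)*β^2 + (-2)*β^3 + (6)*β^4 + (-1)*β^5) h0 ?_ ?_ ?_ ?_
  · linear_combination (0 : ℝ) * h6
  · push_cast; linarith
  · push_cast; linarith
  · push_cast; ring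

lemma step30 {β : ℝ} (hb : Brk β) : dig β 30 = 4 ∧ rem β 30 = (-3:ℝ) + (-6)*β + (-3)*β^2 + (-2)*β^3 + (-5)*β^4 + (1)*β^5 := by
  have h0 := (step29 hb).2
  obtain ⟨h6, l1, u1, l2, u2, l3, u3, l4, u4, l5, u5⟩ := hb
  refine step (w := (1:ℝ) + (-6)*β + (-3)*β^2 + (-2)*β^3 + (-5)*β^4 + (1)*β^5) h0 ?_ ?_ ?_ ?_
  · linear_combination (-1 : ℝ) * h6
  · push_cast; linarith
  · push_cast; linarith
  · push_cast; ring

lemma step31 {β : ℝ} (hb : Brk β) : dig β 31 = 2 ∧ rem β 31 = (-3:ℝ) + (2)*β + (-3)*β^2 + (-5)*β^3 + (1)*β^4 := by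
  have h0 := (step30 hb).2
  obtain ⟨h6, l1, u1, l2, u2, l3, u3, l4, u4, l5, u5⟩ := hb
  refine step (w := (-1:ℝ) + (2)*β + (-3)*β^2 + (-5)*β^3 + (1)*β^4) h0 ?_ ?_ ?_ ?_
  · linear_combination (1 : ℝ) * h6
  · push_cast; linarith
  · push_cast; linarith
  · push_cast; ring

lemma step32 {β : ℝ} (hb : Brk β) : dig β 32 = 4 ∧ rem β 32 = (-4:ℝ) + (-3)*β + (2)*β^2 + (-3)*β^3 + (-5)*β^4 + (1)*β^5 := by
  have h0 := (step31 hb).2
  obtain ⟨h6, l1, u1, l2, u2, l3, u3, l4, u4, l5, u5⟩ := hb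
  refine step (w := (-3)*β + (2)*β^2 + (-3)*β^3 + (-5)*β^4 + (1)*β^5) h0 ?_ ?_ ?_ ?_
  · linear_combination (0 : ℝ) * h6
  · push_cast; linarith
  · push_cast; linarith
  · push_cast; ring

lemma step33 {β : ℝ} (hb : Brk β) : dig β 33 = 4 ∧ rem β 33 = (-5:ℝ) + (1)*β := by
  have h0 := (step32 hb).2
  obtain ⟨h6, l1, u1, l2, u2, l3, u3, l4, u4, l5, u5⟩ := hb
  refine step (w := (-1:ℝ) + (1)*β) h0 ?_ ?_ ?_ ?_
  · linear_combination (1 : ℝ) * h6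
  · push_cast; linarith
  · push_cast; linarith
  · push_cast; ring

/-- the 32 digits of the period -/
def cyc : List ℤ := [2, 4, 1, 0, 4, 0, 5, 1, 0, 0, 4, 2, 2, 1, 2, 4, 1, 4, 0, 3, 3, 5, 0, 5, 0, 4, 0, 1, 4, 2, 4, 4]

lemma dig_lt {β : ℝ} (hb : Brk β) : ∀ n, n < 32 → dig β (n + 2) = cyc.getD n 0 := by
  intro n hn
  interval_cases n
  · exact (step2 hb).1
  · exact (step3 hb).1
  · exact (step4 hb).1
  · exact (step5 hb).1
  · exact (step6 hb).1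
  · exact (step7 hb).1
  · exact (step8 hb).1
  · exact (step9 hb).1
  · exact (step10 hb).1
  · exact (step11 hb).1
  · exact (step12 hb).1
  · exact (step13 hb).1
  · exact (step14 hb).1
  · exact (step15 hb).1
  · exact (step16 hb).1
  · exact (step17 hb).1
  · exact (step18 hb).1
  · exact (step19 hb).1
  · exact (step20 hb).1
  · exact (step21 hb).1
  · exact (step22 hb).1
  · exact (step23 hb).1
  · exact (step24 hb).1
  · exact (step25 hb).1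
  · exact (step26 hb).1
  · exact (step27 hb).1
  · exact (step28 hb).1
  · exact (step29 hb).1
  · exact (step30 hb).1
  · exact (step31 hb).1
  · exact (step32 hb).1
  · exact (step33 hb).1

lemma rem_per {β : ℝ} (hb : Brk β) (n : ℕ) : rem β (n + 33) = rem β (n + 1) := by
  induction n with
  | zero => rw [show 0 + 33 = 33 from rfl, show 0 + 1 = 1 from rfl, (step33 hb).2, (step1 hb).2]
  | succ n ih =>
    show β * rem β (n + 33) - ⌊β * rem β (n + 33)⌋ = β * rem β (n + 1) - ⌊β * rem β (n + 1)⌋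
    rw [ih]

lemma dig_per {β : ℝ} (hb : Brk β) (n : ℕ) : dig β (n + 2 + 32) = dig β (n + 2) := by
  show ⌊β * rem β (n + 33)⌋ = ⌊β * rem β (n + 1)⌋
  rw [rem_per hb]

lemma dig_per' {β : ℝ} (hb : Brk β) (n k : ℕ) : dig β (n + 2 + 32 * k) = dig β (n + 2) := by
  induction k with
  | zero => rfl
  | succ k ih =>
    rw [← ih, show n + 2 + 32 * (k + 1) = (n + 32 * k) + 2 + 32 by ring, dig_per hb]
    congr 1; ring

lemma dig_mod {β : ℝ} (hb : Brk β) (n : ℕ) : dig β (n + 2) = cyc.getD (n % 32) 0 := by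
  have h : n + 2 = n % 32 + 2 + 32 * (n / 32) := by omega
  rw [h, dig_per' hb, dig_lt hb _ (Nat.mod_lt _ (by norm_num))]

lemma hasPP {β : ℝ} (hb : Brk β) : HasPreperiodPeriod β 1 32 := by
  refine ⟨⟨by norm_num, fun n hn => ?_⟩, fun m' p' h => ?_⟩
  · obtain ⟨k, rfl⟩ : ∃ k, n = k + 1 := ⟨n - 1, by omega⟩
    exact (dig_per hb k).symm
  · obtain ⟨hp, h⟩ := h
    have hm : 1 ≤ m' := by
      by_contra hm
      obtain rfl : m' = 0 := by omega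
      have h1 : ∀ k, dig β (1 + p' * k) = dig β 1 := by
        intro k
        induction k with
        | zero => rfl
        | succ k ih =>
          have := h (1 + p' * k) (by omega)
          simp only [Nat.add_zero] at this
          rw [← ih, show 1 + p' * (k + 1) = 1 + p' * k + p' by ring, ← this]
      have h2 := h1 32
      obtain ⟨j, rfl⟩ : ∃ j, p' = j + 1 := ⟨p' - 1, by omega⟩
      rw [show 1 + (j + 1) * 32 = 31 + 2 + 32 * j by ring, dig_per' hb, (step1 hb).1] at h2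
      have h3 := (step33 hb).1
      rw [show 31 + 2 = 33 from rfl, h3] at h2
      norm_num at h2
    refine ⟨hm, ?_⟩
    have h1 : ∀ n, dig β (n + 2) = dig β (n + p' + 2) := by
      intro n
      rw [← dig_per' hb n m', ← dig_per' hb (n + p') m']
      have := h (n + 2 + 32 * m' - m') (by omega)
      rw [show n + 2 + 32 * m' - m' + m' = n + 2 + 32 * m' by omega] at this
      rw [this]
      congr 1; ring
    by_contra hlt
    push Not at hlt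
    have h2 : ∀ n, cyc.getD (n % 32) 0 = cyc.getD ((n + p') % 32) 0 := by
      intro n
      rw [← dig_mod hb, ← dig_mod hb]; exact h1 n
    have h3 : ∀ q < 32, 1 ≤ q → ∃ n < 32, cyc.getD (n % 32) 0 ≠ cyc.getD ((n + q) % 32) 0 := by
      decide
    obtain ⟨n, -, hn⟩ := h3 p' hlt hp
    exact hn (h2 n)

/-- the minimal polynomial -/
noncomputable def P : ℤ[X] := X ^ 6 - 5 * X ^ 5 - 3 * X ^ 4 + 2 * X ^ 3 - 3 * X ^ 2 - 5 * X + 1

/-- the co-factor -/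
noncomputable def Q : ℤ[X] := X ^ 27 + X ^ 25 - X ^ 24 + 2 * X ^ 20 - X ^ 19 + X ^ 18 - 2 * X ^ 17 + X ^ 16 + X ^ 14 + X ^ 13 - X ^ 12 + X ^ 11 - 2 * X ^ 10 + 2 * X ^ 9 - X ^ 8 + 2 * X ^ 7 - X ^ 3 + X ^ 2 + 1

lemma companion {β : ℝ} (hb : Brk β) : expPoly β 33 - expPoly β 1 = P * Q := by
  unfold expPoly P Q
  simp only [Finset.sum_range_succ, Finset.sum_range_zero, Nat.reduceAdd, Nat.reduceSub, Nat.sub_self,
    (step1 hb).1, (step2 hb).1, (step3 hb).1, (step4 hb).1, (step5 hb).1, (step6 hb).1, (step7 hb).1, (step8 hb).1, (step9 hb).1, (step10 hb).1, (step11 hb).1, (step12 hb).1, (step13 hb).1, (step14 hb).1, (step15 hb).1, (step16 hb).1, (step17 hb).1, (step18 hb).1, (step19 hb).1, (step20 hb).1, (step21 hb).1, (step22 hb).1, (step23 hb).1, (step24 hb).1, (step25 hb).1, (step26 hb).1, (step27 hb).1, (step28 hb).1, (step29 hb).1, (step30 hb).1, (step31 hb).1, (step32 hb).1,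 (step33 hb).1]
  simp only [map_ofNat, map_zero, map_one]
  ring
lemma P_natDegree : P.natDegree = 6 := by
  unfold P; compute_degree!

lemma P_monic : P.Monic := by
  unfold P; monicity!

lemma P_eval (t : ℤ) : P.eval t = t ^ 6 - 5 * t ^ 5 - 3 * t ^ 4 + 2 * t ^ 3 - 3 * t ^ 2 - 5 * t + 1 := by
  simp [P]

lemma abs_of_dvd {a b : ℤ} (hb : 0 < b) (h : a ∣ b) : -b ≤ a ∧ a ≤ b := by
  refine ⟨?_, Int.le_of_dvd hb h⟩
  have := Int.le_of_dvd hb (neg_dvd.mpr h)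
  linarith

lemma fin3 : ∀ a ∈ Finset.Icc (-1 : ℤ) 1, ∀ b ∈ Finset.Icc (-9 : ℤ) 7, ∀ c ∈ Finset.Icc (-9 : ℤ) 9,
    ¬ (a ∣ 1 ∧ a + b + c + 1 ∣ 12 ∧ a + -b + c + -1 ∣ 4 ∧ a + b * 2 + c * 4 + 8 ∣ 149 ∧
      a + -(b * 2) + c * 4 + -8 ∣ 159 ∧ a + b * 3 + c * 9 + 27 ∣ 716) := by
  decide +kernel

lemma fin2 : ∀ a ∈ Finset.Icc (-1 : ℤ) 1, ∀ b ∈ Finset.Icc (-14 : ℤ) 12,
    ¬ (a ∣ 1 ∧ a + b + 1 ∣ 12 ∧ a + -b + 1 ∣ 4 ∧ a + b * 2 + 4 ∣ 149 ∧ a + -(b * 2) + 4 ∣ 159) := by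
  decide +kernel

/-- a monic divisor of `P` of degree at most three is trivial -/
lemma no_small_factor (F : ℤ[X]) (hF : F.Monic) (hd : F ∣ P) (h1 : 1 ≤ F.natDegree)
    (h3 : F.natDegree ≤ 3) : False := by
  have hev : ∀ t : ℤ, F.eval t ∣ P.eval t := fun t => eval_dvd hd
  have e0 := hev 0
  have e1 := hev 1
  have em1 := hev (-1)
  have e2 := hev 2
  have em2 := hev (-2)
  have e3 := hev 3
  rw [P_eval] at e0 e1 em1 e2 em2 e3
  have hF' : ∀ t : ℤ, F.eval t = ∑ i ∈ Finset.range (F.natDegree + 1), F.coeff i * t ^ i := by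
    intro t; rw [eval_eq_sum_range]
  have hlead : F.coeff F.natDegree = 1 := hF
  rw [hF'] at e0 e1 em1 e2 em2 e3
  generalize F.natDegree = d at *
  generalize F.coeff = f at *
  interval_cases d
  · simp [Finset.sum_range_succ, hlead] at e0 e1 em1 e2 em2 e3
    have b0 := abs_of_dvd (by norm_num) e0
    have hf : f 0 = 1 ∨ f 0 = 0 ∨ f 0 = -1 := by omega
    rcases hf with hf | hf | hf
    · rw [hf] at em1; norm_num at em1
    · rw [hf] at e0; norm_num at e0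
    · rw [hf] at e1; norm_num at e1
  · simp [Finset.sum_range_succ, hlead] at e0 e1 em1 e2 em2 e3
    have b0 := abs_of_dvd (by norm_num) e0
    have b1 := abs_of_dvd (by norm_num) e1
    exact fin2 (f 0) (by rw [Finset.mem_Icc]; omega) (f 1) (by rw [Finset.mem_Icc]; omega)
      ⟨e0, e1, em1, e2, em2⟩
  · simp [Finset.sum_range_succ, hlead] at e0 e1 em1 e2 em2 e3
    have b0 := abs_of_dvd (by norm_num) e0
    have b1 := abs_of_dvd (by norm_num) e1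
    have b2 := abs_of_dvd (by norm_num) em1
    exact fin3 (f 0) (by rw [Finset.mem_Icc]; omega) (f 1) (by rw [Finset.mem_Icc]; omega)
      (f 2) (by rw [Finset.mem_Icc]; omega) ⟨e0, e1, em1, e2, em2, e3⟩

lemma P_irreducible : Irreducible P := by
  rw [P_monic.irreducible_iff_natDegree']
  refine ⟨by intro h; have := P_natDegree; rw [h] at this; simp at this, ?_⟩
  intro F G hF hG hFG
  rw [P_natDegree]
  intro hmem
  rw [Finset.mem_Ioc] at hmem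
  exact no_small_factor G hG ⟨F, by rw [← hFG, mul_comm]⟩ (by omega) (by omega)

lemma aeval_P (β : ℝ) (h : β ^ 6 = 5 * β ^ 5 + 3 * β ^ 4 - 2 * β ^ 3 + 3 * β ^ 2 + 5 * β - 1) :
    aeval β P = 0 := by
  simp only [P, map_add, map_sub, map_mul, map_pow, aeval_X, map_one, map_ofNat]
  linarith

lemma minpoly_eq {β : ℝ} (h : aeval β P = 0) : minpoly ℤ β = P := by
  have hint : IsIntegral ℤ β := ⟨P, P_monic, by rwa [← aeval_def]⟩
  have h1 : minpoly ℤ β ∣ P := minpoly.isIntegrallyClosed_dvd hint h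
  have h2 := P_irreducible.dvd_iff.mp h1
  rcases h2 with h2 | h2
  · exact absurd h2 (minpoly.not_isUnit ℤ β)
  · exact (eq_of_monic_of_associated (minpoly.monic hint) P_monic h2.symm)

/-- the trace polynomial has three real roots, two of them in `(-2, 2)` -/
lemma trace_roots {β : ℝ} (hβ : 5 < β) (h : β ^ 6 = 5 * β ^ 5 + 3 * β ^ 4 - 2 * β ^ 3 + 3 * β ^ 2 + 5 * β - 1) :
    ∃ y₂ y₃ : ℝ, (1 < y₂ ∧ y₂ < 2) ∧ (-2 < y₃ ∧ y₃ < -1) ∧
      (∀ y : ℂ, y ^ 3 - 5 * y ^ 2 - 6 * y + 12 = (y - (β + β⁻¹ : ℝ)) * (y - y₂) * (y - y₃)) := by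
  have hb0 : β ≠ 0 := by linarith
  set y₁ : ℝ := β + β⁻¹ with hy₁
  have hT1 : y₁ ^ 3 - 5 * y₁ ^ 2 - 6 * y₁ + 12 = 0 := by
    have : β ^ 3 * (y₁ ^ 3 - 5 * y₁ ^ 2 - 6 * y₁ + 12) = 0 := by
      rw [hy₁]; field_simp; linear_combination h
    rcases mul_eq_zero.mp this with h' | h'
    · exact absurd h' (pow_ne_zero 3 hb0)
    · exact h'
  have hy1 : 5 < y₁ := by
    have : 0 < β⁻¹ := inv_pos.mpr (by linarith)
    linarith
  have hc : Continuous (fun y : ℝ => y ^ 3 - 5 * y ^ 2 - 6 * y + 12) := by fun_prop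
  obtain ⟨y₂, ⟨ha2, hb2⟩, h2⟩ := intermediate_value_Ioo' (by norm_num : (1 : ℝ) ≤ 2) hc.continuousOn
    (show (0 : ℝ) ∈ Set.Ioo _ _ by constructor <;> norm_num)
  obtain ⟨y₃, ⟨ha3, hb3⟩, h3⟩ := intermediate_value_Ioo (by norm_num : (-2 : ℝ) ≤ -1) hc.continuousOn
    (show (0 : ℝ) ∈ Set.Ioo _ _ by constructor <;> norm_num)
  simp only at h2 h3
  refine ⟨y₂, y₃, ⟨ha2, hb2⟩, ⟨ha3, hb3⟩, fun y => ?_⟩
  have q2 : y₂ ^ 2 + (y₁ - 5) * y₂ + (y₁ ^ 2 - 5 * y₁ - 6) = 0 := by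
    have : (y₂ - y₁) * (y₂ ^ 2 + (y₁ - 5) * y₂ + (y₁ ^ 2 - 5 * y₁ - 6)) = 0 := by
      linear_combination h2 - hT1
    rcases mul_eq_zero.mp this with h' | h'
    · linarith
    · exact h'
  have q3 : y₃ ^ 2 + (y₁ - 5) * y₃ + (y₁ ^ 2 - 5 * y₁ - 6) = 0 := by
    have : (y₃ - y₁) * (y₃ ^ 2 + (y₁ - 5) * y₃ + (y₁ ^ 2 - 5 * y₁ - 6)) = 0 := by
      linear_combination h3 - hT1
    rcases mul_eq_zero.mp this with h' | h'
    · linarith
    · exact h'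
  have s1 : y₁ + y₂ + y₃ - 5 = 0 := by
    have : (y₂ - y₃) * (y₁ + y₂ + y₃ - 5) = 0 := by linear_combination q2 - q3
    rcases mul_eq_zero.mp this with h' | h'
    · linarith
    · exact h'
  have e1 : (y₁ : ℂ) + y₂ + y₃ - 5 = 0 := by exact_mod_cast congrArg (fun t : ℝ => (t : ℂ)) s1
  have e2 : (y₂ : ℂ) ^ 2 + (y₁ - 5) * y₂ + (y₁ ^ 2 - 5 * y₁ - 6) = 0 := by
    exact_mod_cast congrArg (fun t : ℝ => (t : ℂ)) q2
  have e3 : (y₁ : ℂ) ^ 3 - 5 * y₁ ^ 2 - 6 * y₁ + 12 = 0 := by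
    exact_mod_cast congrArg (fun t : ℝ => (t : ℂ)) hT1
  have e4 : (y₃ : ℂ) = 5 - y₁ - y₂ := by linear_combination e1
  rw [e4]
  linear_combination e3 + (y - y₁) * e2

lemma norm_of_quad {z : ℂ} {y : ℝ} (h : z ^ 2 - y * z + 1 = 0) (hy : y ^ 2 < 4) : ‖z‖ = 1 := by
  have hre := congrArg Complex.re h
  have him := congrArg Complex.im h
  simp [pow_two] at hre him
  have him' : z.im * (2 * z.re - y) = 0 := by linarith
  have h2 : z.re * z.re + z.im * z.im = 1 := by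
    rcases mul_eq_zero.mp him' with h0 | h0
    · rw [h0] at hre ⊢
      nlinarith [sq_nonneg (z.re - y / 2)]
    · have : y = 2 * z.re := by linarith
      rw [this] at hre
      nlinarith
  have h3 : Complex.normSq z = 1 := by rw [Complex.normSq_apply]; exact h2
  rw [Complex.norm_def, h3, Real.sqrt_one]

lemma exists_quad {y : ℝ} (hy : y ^ 2 < 4) : ∃ z : ℂ, z ^ 2 - y * z + 1 = 0 := by
  obtain ⟨s, hs⟩ : ∃ s : ℝ, s * s = 1 - y ^ 2 / 4 :=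
    ⟨Real.sqrt (1 - y ^ 2 / 4), Real.mul_self_sqrt (by linarith)⟩
  refine ⟨⟨y / 2, s⟩, ?_⟩
  apply Complex.ext
  · simp [pow_two]; nlinarith
  · simp [pow_two]; ring

lemma isSalem {β : ℝ} (hβ : 5 < β)
    (h : β ^ 6 = 5 * β ^ 5 + 3 * β ^ 4 - 2 * β ^ 3 + 3 * β ^ 2 + 5 * β - 1) : IsSalem β := by
  have hP := aeval_P β h
  have hmin := minpoly_eq hP
  obtain ⟨y₂, y₃, h2, h3, hT⟩ := trace_roots hβ h
  have hPz : ∀ z : ℂ, aeval z P = z ^ 6 - 5 * z ^ 5 - 3 * z ^ 4 + 2 * z ^ 3 - 3 * z ^ 2 - 5 * z + 1 := by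
    intro z
    simp only [P, map_add, map_sub, map_mul, map_pow, aeval_X, map_one, map_ofNat]
  obtain ⟨y₁, hy₁⟩ : ∃ y₁ : ℝ, y₁ = β + β⁻¹ := ⟨_, rfl⟩
  have hfac : ∀ z : ℂ, z ≠ 0 → aeval z P =
      (z ^ 2 - y₁ * z + 1) * (z ^ 2 - y₂ * z + 1) * (z ^ 2 - y₃ * z + 1) := by
    intro z hz
    have e := hT (z + z⁻¹)
    rw [← hy₁] at e
    rw [hPz]
    have e1 : z ^ 6 - 5 * z ^ 5 - 3 * z ^ 4 + 2 * z ^ 3 - 3 * z ^ 2 - 5 * z + 1 =
        z ^ 3 * ((z + z⁻¹) ^ 3 - 5 * (z + z⁻¹) ^ 2 - 6 * (z + z⁻¹) + 12) := by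
      field_simp; ring
    rw [e1, e]
    field_simp
    ring
  refine ⟨by linarith, ⟨P, P_monic, by rwa [← aeval_def]⟩, ?_, ?_⟩
  · intro z hz hne
    rw [hmin] at hz
    have hz0 : z ≠ 0 := by
      rintro rfl
      rw [hPz] at hz; norm_num at hz
    rw [hfac z hz0] at hz
    rcases mul_eq_zero.mp hz with hz | hz
    · rcases mul_eq_zero.mp hz with hz | hz
      · have hb0 : (β : ℂ) ≠ 0 := by
          intro h0; have : β = 0 := by exact_mod_cast h0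
          linarith
        have : (z - β) * (z - (β : ℂ)⁻¹) = 0 := by
          rw [hy₁] at hz
          push_cast at hz
          have h1 : (β : ℂ) * (β : ℂ)⁻¹ = 1 := mul_inv_cancel₀ hb0
          linear_combination hz + h1
        rcases mul_eq_zero.mp this with h' | h'
        · exact absurd (sub_eq_zero.mp h') hne
        · rw [sub_eq_zero.mp h', norm_inv, Complex.norm_real, Real.norm_of_nonneg (by linarith)]
          exact inv_le_one_of_one_le₀ (by linarith)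
      · exact (norm_of_quad hz (by nlinarith [h2.1, h2.2])).le
    · exact (norm_of_quad hz (by nlinarith [h3.1, h3.2])).le
  · obtain ⟨z, hz⟩ := exists_quad (y := y₂) (by nlinarith [h2.1, h2.2])
    refine ⟨z, ?_, norm_of_quad hz (by nlinarith [h2.1, h2.2])⟩
    have hz0 : z ≠ 0 := by
      rintro rfl
      norm_num at hz
    rw [hmin, hfac z hz0, hz]; ring

lemma Q_natDegree : Q.natDegree = 27 := by
  unfold Q; compute_degree!

lemma Q_reverse : Q.reverse ≠ Q := by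
  intro h
  have h1 : Q.coeff 9 = Q.reverse.coeff 9 := by rw [h]
  rw [coeff_reverse, Q_natDegree] at h1
  have h2 : (Polynomial.revAt 27) 9 = 18 := by rw [Polynomial.revAt_le (by norm_num)]
  rw [h2] at h1
  unfold Q at h1
  simp [coeff_one, coeff_X_pow, coeff_ofNat_mul] at h1

/-- There is a Salem number `β` of degree `6`, with minimal polynomial
`x^6-5x^5-3x^4+2x^3-3x^2-5x+1`, whose greedy expansion of `1` is eventually periodic with
preperiod length `1` and period length `32` and whose co-factor `Q` is not reciprocal. -/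
theorem result : ∃ β : ℝ, IsSalem β ∧ (minpoly ℤ β).natDegree = 6 ∧
    minpoly ℤ β = X ^ 6 - 5 * X ^ 5 - 3 * X ^ 4 + 2 * X ^ 3 - 3 * X ^ 2 - 5 * X + 1 ∧
    HasPreperiodPeriod β 1 32 ∧
    ∃ Q : ℤ[X], expPoly β (1 + 32) - expPoly β 1 = minpoly ℤ β * Q ∧ Q.reverse ≠ Q := by
  obtain ⟨β, hb⟩ := exists_beta
  have hβ : 5 < β := lt_trans (by norm_num) hb.lo1
  have hmin := minpoly_eq (aeval_P β hb.root)
  refine ⟨β, isSalem hβ hb.root, ?_, hmin, hasPP hb, Q, ?_, Q_reverse⟩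
  · rw [hmin, P_natDegree]
  · rw [hmin]; exact companion hb

end Pool.Agent.Results.MP_9c9d6b_nt.NonReciprocal
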